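import Pool.Agent.Q3.FracRev.Main

open Pool.Agent.Q3.FracRev

namespace Pool.Agent.Results.MP_884c22_co.QuarticSupport

/-- There is a graph `G` with proper fractional revival on a pair of distinct vertices `{a, b}`
(`exp (i τ A) e_a = α e_a + β e_b` with `τ > 0` and `α β ≠ 0`) such that some eigenvalue `θ` in the
eigenvalue support of `a` is neither an integer nor a quadratic integer: its degree over `ℚ` is at
least three. -/
theorem result : ∃ (V : Type) (_ : Fintype V) (_ : DecidableEq V) (G : SimpleGraph V)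
    (_ : DecidableRel G.Adj) (a b : V), a ≠ b ∧
    (∃ (τ : ℝ) (α β : ℂ), 0 < τ ∧ α * β ≠ 0 ∧
      (NormedSpace.exp ((Complex.I * (τ : ℂ)) • G.adjMatrix ℂ)).mulVec (Pi.single a 1) =
        α • Pi.single a 1 + β • Pi.single b 1) ∧
    ∃ θ : ℝ, InSupport G a θ ∧ 3 ≤ (minpoly ℚ θ).natDegree :=
  ⟨V, inferInstance, inferInstance, X, inferInstance, Sum.inl 0, Sum.inl 1, by decide,
    revival, th, th_support, th_degree⟩

end Pool.Agent.Results.MP_884c22_co.QuarticSupport
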